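import Pool.Agent.Helper75.CC.Zm
import Pool.Agent.Helper80.SUB.Cc

/-! THE CLASS `CL k`: changes of the point by the finest resolution; more types on extensions. -/

set_option autoImplicit false

namespace Pool.Agent.Helper80.OKC

open Finset Filter Topology Pool.Agent.Helper69.RK Pool.Agent.Helper31.EC Pool.Agent.Helper31.EC.Sp
open Pool.Agent.Helper40.EL Pool.Agent.Helper89.LX Pool.Agent.Helper3.LF Pool.Agent.Helper84.MT Pool.Agent.Helper36.AM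
open Pool.Agent.Helper49.MD
open Pool.Agent.Helper38.NSL Pool.Agent.Helper80.SUB
open Pool.Agent.Helper75.CC (SL sw tl Dt Dl CC CL)

noncomputable section

variable {S T : Sp} {M : ℕ} {E E' : ℕ → ℕ} {ι κ : Type}

/-! ### more types -/

/-- an extension of the point and of the types is an auxiliary system -/
theorem Sub.add (s : MSys S M E ι) (p : Pj T S) (hg : ∀ D, E D ≤ E' D) (L : κ → Leaf T (p.vv s.Q) E') (f : ι → κ)
    (hf : ∀ i, L (f i) = ((s.lf i).pull p).monoE hg) : Sub s p ⟨p.vv s.Q, L⟩ where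
  pt := rfl
  tp := fun i => ⟨f i, fun _ => ⊥, NI_of_PLe (PLe_of_le fun k => bot_le), fun b _ _ => by
    have e : (L (f i)).win b = ((s.lf i).win b).pull p := by
      rw [hf i]
      exact win_pull p (s.lf i) b
    show PLe ((L (f i)).win b) _
    rw [e]
    exact PLe_left _ _⟩

/-- classes closed under auxiliary systems are closed under more types on extensions -/
theorem add_of_subCl {A : MCl M} (hA : SubCl A) (S : Sp) (g r : ℕ) (s : MSys S M (lin g) (Fin r)) (hs : A S g r s)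
    (T : Sp) (p : Pj T S) (g' r' : ℕ) (hg : ∀ D, Pool.Agent.Helper84.MT.lin g D ≤ Pool.Agent.Helper84.MT.lin g' D) (L : Fin r' → Leaf T (p.vv s.Q) (lin g'))
    (f : Fin r → Fin r') (hf : ∀ i, L (f i) = ((s.lf i).pull p).monoE hg) : A T g' r' ⟨p.vv s.Q, L⟩ :=
  hA S g r s hs T p g' r' _ (Sub.add s p hg L f hf)

theorem CL_add {k : ℕ} (S : Sp) (g r : ℕ) (s : MSys S M (lin g) (Fin r)) (hs : CL M k S g r s)
    (T : Sp) (p : Pj T S) (g' r' : ℕ) (hg : ∀ D, Pool.Agent.Helper84.MT.lin g D ≤ Pool.Agent.Helper84.MT.lin g' D) (L : Fin r' → Leaf T (p.vv s.Q) (lin g'))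
    (f : Fin r → Fin r') (hf : ∀ i, L (f i) = ((s.lf i).pull p).monoE hg) : CL M k T g' r' ⟨p.vv s.Q, L⟩ :=
  add_of_subCl (subCl_CL M k) S g r s hs T p g' r' hg L f hf

/-! ### changes of the point by the finest resolution -/

/-- the window of the finite data -/
theorem win_lob {Q Q' : S.VV M} (l : Leaf S Q E) (l' : Leaf S Q' E') (h : ∀ᶠ k in UF, lob l' k = lob l k) (b : ℝ) :
    ∀ᶠ k in UF, l'.win b k = l.win b k := by
  filter_upwards [h] with k hk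
  have e1 : l.win b k = FLf.win (S.F k) (lob l k) b := rfl
  have e2 : l'.win b k = FLf.win (S.F k) (lob l' k) b := rfl
  rw [e1, e2, hk]

theorem PLe_ev {A B : Part S} (h : ∀ᶠ k in UF, A k = B k) : PLe A B := by
  unfold PLe Nul
  refine tendsto_const_nhds.congr' ?_
  filter_upwards [h] with k hk
  rw [hk, h_self, zero_div]

/-- close points: cells of one coordinate -/
theorem PLe_close {Q Q' : S.VV M} {K : ℕ → ℝ} (hK : S.Sub K)
    (hc : ∀ᶠ k in UF, ∀ ω, (S.F k).μ ω ≠ 0 → ∀ j, |Q'.v k ω j - Q.v k ω j| ≤ K k * S.dl 1 k) (t : Fin M)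
    (L : ∀ k, Setoid (S.F k).Ω) {b : ℝ} (h1 : b ≤ 1) :
    PLe (fun k => fc (Setoid.ker ((Q.co t).cellv b k))) (fun k => fc (L k ⊓ Setoid.ker ((Q'.co t).cellv b k))) := by
  refine PLe_cell (Q.co t) b (fun k => L k ⊓ Setoid.ker ((Q'.co t).cellv b k)) (fun k => 1 + (K k + K k))
    ((S.Sub_const zero_le_one).add (hK.add hK)) ?_
  filter_upwards [hc, hK.1] with k a1 a2 ω ω' b1 b2 _ r i
  have h3 : |Q'.v k ω t - Q'.v k ω' t| ≤ S.dl b k := abs_sub_le_of_floor_eq (S.dl_pos b k) (congrFun r.2 0)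
  have h4 := a1 ω b1 t
  have h5 := a1 ω' b2 t
  have h6 : K k * S.dl 1 k ≤ K k * S.dl b k := mul_le_mul_of_nonneg_left (S.dl_anti h1 k) a2
  show |Q.v k ω t - Q.v k ω' t| ≤ _
  rw [abs_le] at h3 h4 h5 ⊢
  constructor <;> nlinarith

theorem close_symm {Q Q' : S.VV M} {K : ℕ → ℝ}
    (hc : ∀ᶠ k in UF, ∀ ω, (S.F k).μ ω ≠ 0 → ∀ j, |Q'.v k ω j - Q.v k ω j| ≤ K k * S.dl 1 k) :
    ∀ᶠ k in UF, ∀ ω, (S.F k).μ ω ≠ 0 → ∀ j, |Q.v k ω j - Q'.v k ω j| ≤ K k * S.dl 1 k := by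
  filter_upwards [hc] with k hk ω hω j
  rw [abs_sub_comm]
  exact hk ω hω j

/-- FINER LEAVES: change of the point -/
theorem SL_pnt {s s' : MSys S M E ι} (h1 : ∀ i, ∀ᶠ k in UF, lob (s'.lf i) k = lob (s.lf i) k) {K : ℕ → ℝ}
    (hK : S.Sub K)
    (hc : ∀ᶠ k in UF, ∀ ω, (S.F k).μ ω ≠ 0 → ∀ j, |s'.Q.v k ω j - s.Q.v k ω j| ≤ K k * S.dl 1 k) {i : ι} {t : Fin M}
    {L : ∀ k, Setoid (S.F k).Ω} (hs : SL s i t L) : SL s' i t L where
  win := fun b b0 b1 => by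
    refine (PLe_ev (win_lob (s.lf i) (s'.lf i) (h1 i) b)).trans ((hs.win b b0 b1).trans ?_)
    exact PLe_inf (A := L) (B := fun k => Setoid.ker ((s.Q.co t).cellv b k))
      (PLe_of_le fun k => fc_mono inf_le_left) (PLe_close hK hc t L b1)
  real := by
    refine tendsto_swap S (fun k => Setoid.ker ((s.Q.co t).cellv 1 k)) (fun k => Setoid.ker ((s'.Q.co t).cellv 1 k)) L
      hs.real ?_ ?_
    · refine (PLe_close hK (close_symm hc) t L le_rfl).trans (PLe_of_le fun k => ?_)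
      rw [inf_comm]
    · refine (PLe_close hK hc t L le_rfl).trans (PLe_of_le fun k => ?_)
      rw [inf_comm]

/-- powers of close numbers -/
theorem pow_close {x y B : ℝ} (hx : |x| ≤ B) (hy : |y| ≤ B) (m : ℕ) : |x ^ m - y ^ m| ≤ m * B ^ (m - 1) * |x - y| := by
  have hB : 0 ≤ B := (abs_nonneg x).trans hx
  induction m with
  | zero => simp
  | succ m ih =>
    rcases Nat.eq_zero_or_pos m with h0 | h0
    · subst h0
      simp
    · have e1 : x ^ (m + 1) - y ^ (m + 1) = x ^ m * (x - y) + (x ^ m - y ^ m) * y := by ring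
      rw [e1]
      refine (abs_add_le _ _).trans ?_
      rw [abs_mul, abs_mul, abs_pow]
      have h2 : |x| ^ m * |x - y| ≤ B ^ m * |x - y| :=
        mul_le_mul_of_nonneg_right (pow_le_pow_left₀ (abs_nonneg x) hx m) (abs_nonneg _)
      have h3 : |x ^ m - y ^ m| * |y| ≤ (m * B ^ (m - 1) * |x - y|) * B :=
        mul_le_mul ih hy (abs_nonneg _) (by positivity)
      have e2 : (m * B ^ (m - 1) * |x - y|) * B = m * B ^ m * |x - y| := by
        have : B ^ m = B ^ (m - 1) * B := by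
          rw [← pow_succ]
          congr 1
          omega
        rw [this]
        ring
      rw [e2] at h3
      rw [Nat.add_sub_cancel]
      push_cast
      linarith

/-- DATA OF `CL`: change of the point -/
theorem Dl_pnt {k : ℕ} {t u : Fin M} {s s' : MSys S M E ι} (d : Dl k t u s)
    (h1 : ∀ i, ∀ᶠ n in UF, lob (s'.lf i) n = lob (s.lf i) n)
    (h2 : ∃ K : ℕ → ℝ, S.Sub K ∧ ∀ᶠ n in UF, ∀ ω, (S.F n).μ ω ≠ 0 → ∀ j,
      |s'.Q.v n ω j - s.Q.v n ω j| ≤ K n * S.dl 1 n) : Nonempty (Dl k t u s') := by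
  obtain ⟨K, hK, hc⟩ := h2
  refine ⟨{ i := d.i, L := d.L, a := d.a, sl := SL_pnt h1 hK hc d.sl, fa := d.fa, ba := d.ba, eq := ?_ }⟩
  obtain ⟨K₀, hK₀, he⟩ := d.eq
  obtain ⟨Ka, hKa, hba⟩ := d.ba
  obtain ⟨KQ, hKQ, hQ⟩ := s.Q.bd
  obtain ⟨KQ', hKQ', hQ'⟩ := s'.Q.bd
  have hB : S.Sub (fun n => KQ n + KQ' n + 1) := (hKQ.add hKQ').add (S.Sub_const zero_le_one)
  refine ⟨fun n => K₀ n + (K n + ((k : ℝ) + 1) * (Ka n * ((k : ℝ) * (KQ n + KQ' n + 1) ^ k * K n))), hK₀.add (hK.add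
    ((S.Sub_const (by positivity)).mul (hKa.mul (((S.Sub_const (Nat.cast_nonneg k)).mul
      (Sub_pow' hB k)).mul hK)))), he.mono ?_⟩
  filter_upwards [hc, hba, hQ, hQ', hK.1, hKa.1, hKQ.1, hKQ'.1] with n a1 a2 a3 a4 b1 b2 b3 b4 ω hω h3
  have hd := S.dl_pos 1 n
  set B : ℝ := KQ n + KQ' n + 1 with hBd
  have hB1 : 1 ≤ B := by rw [hBd]; linarith
  have e1 : s'.Q.v n ω u - ∑ l, d.a n ω l * s'.Q.v n ω t ^ (l : ℕ) =
      (s.Q.v n ω u - ∑ l, d.a n ω l * s.Q.v n ω t ^ (l : ℕ)) + ((s'.Q.v n ω u - s.Q.v n ω u) -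
        ∑ l, d.a n ω l * (s'.Q.v n ω t ^ (l : ℕ) - s.Q.v n ω t ^ (l : ℕ))) := by
    have e2 : ∑ l, d.a n ω l * (s'.Q.v n ω t ^ (l : ℕ) - s.Q.v n ω t ^ (l : ℕ)) =
        ∑ l, d.a n ω l * s'.Q.v n ω t ^ (l : ℕ) - ∑ l, d.a n ω l * s.Q.v n ω t ^ (l : ℕ) := by
      rw [← Finset.sum_sub_distrib]
      refine Finset.sum_congr rfl fun l _ => by ring
    rw [e2]
    ring
  have h4 : |∑ l, d.a n ω l * (s'.Q.v n ω t ^ (l : ℕ) - s.Q.v n ω t ^ (l : ℕ))| ≤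
      ((k : ℝ) + 1) * (Ka n * ((k : ℝ) * B ^ k * (K n * S.dl 1 n))) := by
    refine (Finset.abs_sum_le_sum_abs _ _).trans ?_
    have h5 : ∀ l ∈ (Finset.univ : Finset (Fin (k + 1))), |d.a n ω l * (s'.Q.v n ω t ^ (l : ℕ) -
        s.Q.v n ω t ^ (l : ℕ))| ≤ Ka n * ((k : ℝ) * B ^ k * (K n * S.dl 1 n)) := by
      intro l _
      rw [abs_mul]
      refine mul_le_mul (a2 ω hω l) ?_ (abs_nonneg _) b2
      have h6 := pow_close (x := s'.Q.v n ω t) (y := s.Q.v n ω t) (B := B) ((a4 ω hω t).trans (by rw [hBd]; linarith))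
        ((a3 ω hω t).trans (by rw [hBd]; linarith)) (l : ℕ)
      refine h6.trans ?_
      have hl : (l : ℕ) ≤ k := Nat.lt_succ_iff.mp l.isLt
      have h7 : ((l : ℕ) : ℝ) ≤ k := by exact_mod_cast hl
      have h8 : B ^ ((l : ℕ) - 1) ≤ B ^ k := pow_le_pow_right₀ hB1 (by omega)
      exact mul_le_mul (mul_le_mul h7 h8 (by positivity) (Nat.cast_nonneg k)) (a1 ω hω t) (abs_nonneg _)
        (by positivity)
    refine (Finset.sum_le_sum h5).trans ?_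
    rw [Finset.sum_const, Finset.card_univ, Fintype.card_fin, nsmul_eq_mul]
    push_cast
    exact le_rfl
  rw [e1]
  refine (abs_add_le _ _).trans ?_
  have h5 := abs_sub (s'.Q.v n ω u - s.Q.v n ω u) (∑ l, d.a n ω l * (s'.Q.v n ω t ^ (l : ℕ) - s.Q.v n ω t ^ (l : ℕ)))
  have h6 := a1 ω hω u
  calc _ ≤ K₀ n * S.dl 1 n + (K n * S.dl 1 n + ((k : ℝ) + 1) * (Ka n * ((k : ℝ) * B ^ k * (K n * S.dl 1 n)))) := by
        linarith
    _ = _ := by ring

theorem CL_pnt {k : ℕ} {g r : ℕ} {s s' : MSys S M (lin g) (Fin r)} (hs : CL M k S g r s)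
    (h1 : ∀ i, ∀ᶠ n in UF, lob (s'.lf i) n = lob (s.lf i) n)
    (h2 : ∃ K : ℕ → ℝ, S.Sub K ∧ ∀ᶠ n in UF, ∀ ω, (S.F n).μ ω ≠ 0 → ∀ j,
      |s'.Q.v n ω j - s.Q.v n ω j| ≤ K n * S.dl 1 n) : CL M k S g r s' := by
  obtain ⟨t, u, ht, hu, ⟨d⟩⟩ := hs
  exact ⟨t, u, ht, hu, Dl_pnt d h1 h2⟩

end

end Pool.Agent.Helper80.OKC
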