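import Pool.Agent.Helper75.CC.Zm
import Pool.Agent.Helper24.PR.Ovl

/-! THE CLASS `CL k`: base change over labels without leak at the windows `0` of the types. -/

set_option autoImplicit false

namespace Pool.Agent.Helper80.OKC

open Finset Filter Topology Pool.Agent.Helper69.RK Pool.Agent.Helper31.EC Pool.Agent.Helper31.EC.Sp
open Pool.Agent.Helper40.EL Pool.Agent.Helper3.LF Pool.Agent.Helper84.MT Pool.Agent.Helper36.AM
open Pool.Agent.Helper7.GZ Pool.Agent.Helper24.PR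
open Pool.Agent.Helper75.CC

noncomputable section

variable {S T : Sp} {M : ℕ} {E E' : ℕ → ℕ} {ι κ : Type}

/-- the base change as a zoom -/
def zu1 (l : Lab S) : ZU S := ⟨l, 0, 1, le_rfl, one_pos, by norm_num⟩

/-- BASE CHANGE of a finer leaf -/
theorem SL_bas {s : MSys S M E ι} {i : ι} {t : Fin M} {L : ∀ k, Setoid (S.F k).Ω} (h : SL s i t L) (l : Lab S)
    (hl : ∀ i, Nul S (fun k => (l k).leak ((s.lf i).win 0 k))) :
    SL (ovl s l hl) i t (zL (zu1 l) s.Q t L) := by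
  refine h.zoom (zu1 l) (hl i) (t' := ovl s l hl) (i' := i) (b := t) (o := fun _ _ => 0) (fun w _ _ => ?_) ?_
  · have e1 : ((ovl s l hl).lf i).win w = l.up 1 one_pos ((s.lf i).win w) := lov_win (s.lf i) l (hl i) w
    have e2 : (zu1 l).c + (zu1 l).u * w = w := by
      show 0 + 1 * w = w
      ring
    rw [e2]
    exact PLe_of_le fun k => (congrFun e1 k).le
  · refine ⟨Eventually.of_forall fun _ _ _ _ _ _ => rfl, fun _ => 0, S.Sub_const le_rfl,
      Eventually.of_forall fun k ω _ => ?_⟩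
    have e1 : s.Q.v k ((l k).p.π ω) t - (0 + S.dl 0 k * s.Q.v k ((l k).p.π ω) t) = 0 := by
      rw [S.dl_zero]
      ring
    have e2 : |s.Q.v k ((l k).p.π ω) t - (0 + S.dl 0 k * s.Q.v k ((l k).p.π ω) t)| ≤ 0 * S.dl (0 + 1) k := by
      rw [e1, abs_zero, zero_mul]
    exact e2

/-- BASE CHANGE of the data of `CL` -/
theorem Dl_bas {k : ℕ} {t u : Fin M} {s : MSys S M E ι} (d : Dl k t u s) (l : Lab S)
    (hl : ∀ i, Nul S (fun k => (l k).leak ((s.lf i).win 0 k))) : Nonempty (Dl k t u (ovl s l hl)) := by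
  refine ⟨{
    i := d.i
    L := zL (zu1 l) s.Q t d.L
    a := fun n (ω : (l n).T.Ω) => d.a n ((l n).p.π ω)
    sl := SL_bas d.sl l hl
    fa := ?_
    ba := ?_
    eq := ?_ }⟩
  · filter_upwards [d.fa] with n hn
    intro (ω : (l n).T.Ω) (ω' : (l n).T.Ω) h1 h2 h3 h4
    have h5 : (l n).T.Z ω ω' := h3.2
    have h6 : (zL (zu1 l) s.Q t d.L n) ω ω' := h4
    exact hn _ _ ((l n).p.supp ω h1) ((l n).p.supp ω' h2) (((l n).p.hZ ω ω' h1 h2).1 h5) h6.1
  · obtain ⟨K, hK, h⟩ := d.ba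
    refine ⟨K, (zu1 l).Sub_sp.mp hK, ?_⟩
    filter_upwards [h] with n hn
    intro (ω : (l n).T.Ω) hω j
    exact hn _ ((l n).p.supp ω hω) j
  · obtain ⟨K, hK, h⟩ := d.eq
    refine ⟨K, (zu1 l).Sub_sp.mp hK, ?_⟩
    have h1 : Typ (S := l.sp) (fun n (ω : (l n).T.Ω) => |s.Q.v n ((l n).p.π ω) u -
        ∑ j, d.a n ((l n).p.π ω) j * s.Q.v n ((l n).p.π ω) t ^ (j : ℕ)| ≤ K n * S.dl 1 n) := l.pj.typ h
    refine Typ.mono (S := l.ovr 1 one_pos) h1 (Eventually.of_forall fun n ω _ hω => ?_)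
    have e1 : (l.ovr 1 one_pos).dl 1 n = S.dl 1 n := by
      have e2 : ((l.ovr 1 one_pos).F n).n = 1 * (S.F n).n := l.n_over 1 one_pos n
      unfold Sp.dl
      rw [e2, one_mul]
    rw [e1]
    exact hω

theorem CL_bas {k : ℕ} {g r : ℕ} {s : MSys S M (lin g) (Fin r)} (hs : CL M k S g r s) (l : Lab S)
    (hl : ∀ i, Nul S (fun k => (l k).leak ((s.lf i).win 0 k))) : CL M k (l.ovr 1 one_pos) g r (ovl s l hl) := by
  obtain ⟨t, u, ht, hu, ⟨d⟩⟩ := hs
  exact ⟨t, u, ht, hu, Dl_bas d l hl⟩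

end

end Pool.Agent.Helper80.OKC
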