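import Pool.Agent.Helper80.OKC.Ok
import Pool.Agent.Helper40.PB.Top

/-! THE ROW okC: closed form. -/

set_option autoImplicit false

namespace Pool.Agent.Helper80.OKC

open Pool.Agent.Helper75.CC Pool.Agent.Helper29.MX

/-- **okC** -/
theorem okC_closed (M k : ℕ) : okM (M + 2) (CL (M + 2) k) (CC (M + 2) k) :=
  okC M k fun v h => Pool.Agent.Helper40.PB.sto_pb M k v h

end Pool.Agent.Helper80.OKC
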