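import Pool.Agent.Helper75.CC.Zm
import Pool.Agent.Helper7.RD.Fx
import Pool.Agent.Helper14.MT1.Ent
import Pool.Agent.Helper81.MT.Bas
import Pool.Agent.Helper8.KL.Kl

/-! THE VOLUME OF THE FIRST COORDINATE: over a system with a finer leaf in the coordinate `t`, the hull of the window `c`
of this coordinate has the volume `1 - c`. -/

set_option autoImplicit false

namespace Pool.Agent.Helper80.OKC

open Finset Filter Topology Matrix Pool.Agent.Helper69.RK Pool.Agent.Helper31.EC Pool.Agent.Helper31.EC.Sp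
open Pool.Agent.Helper40.EL Pool.Agent.Helper89.LX Pool.Agent.Helper3.LF Pool.Agent.Helper84.MT
open Pool.Agent.Helper36.AM
open Pool.Agent.Helper7.GZ Pool.Agent.Helper7.RD
open Pool.Agent.Helper87.NSL (KnS cndR)
open Pool.Agent.Helper75.CC

noncomputable section

variable {S T : Sp} {M : ℕ} {E E' : ℕ → ℕ} {ι κ : Type}

/-! ### lower bound -/

/-- ENTROPY of the coordinate over labels of the window `c` -/
theorem ent_ge {s : MSys S M E ι} {i : ι} {t : Fin M} {L : ∀ k, Setoid (S.F k).Ω} (hs : SL s i t L) {c : ℝ}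
    (h0 : 0 ≤ c) (h1 : c ≤ 1) {l : Lab S} (hl : Nul S (fun k => (l k).leak ((s.lf i).win c k))) :
    1 - c ≤ H (up1 l ((s.Q.co t).dg 1)) := by
  have hl2 := Nul_leak hl (hs.win c h0 h1)
  have key := Pool.Agent.Helper14.MT1.le_H_up1 l (s.Q.co t) (fun _ => 1 - c) (UB_const _) ?_
  · rwa [ul_const] at key
  intro ε hε
  filter_upwards [hl2.eventually (gt_mem_nhds (show (0 : ℝ) < ε / 3 by linarith)),
    h_cell_le (s.Q.co t) h0 (fun k => fc (L k)) (ε / 3) (by linarith),
    hs.real.eventually (lt_mem_nhds (show (1 : ℝ) - ε / 3 < 1 by linarith))] with k a1 a2 a3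
  have hn := (S.F k).pos
  set W : FL (S.F k) := pcd (s.Q.co t) k with hW
  set A : FL (S.F k) := sw s.Q t L c k with hA
  have b1 : Helper31.EC.h ((l k).p.map W) ((l k).p.map A) - (l k).leak A ≤ Helper31.EC.h ((l k).p.map W) (l k).v := by
    have c1 : I (l k).v ((l k).p.map W) ((l k).p.map A) = Helper31.EC.h ((l k).p.map W) ((l k).p.map A) -
        Helper31.EC.h ((l k).p.map W) ((l k).v ⊔ (l k).p.map A) := by
      rw [I_comm, I_eq]
    have c2 : I (l k).v ((l k).p.map W) ((l k).p.map A) ≤ (l k).leak A :=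
      I_mono_right (((l k).p.map_le_top _).trans le_sup_left)
    have c3 : Helper31.EC.h ((l k).p.map W) ((l k).v ⊔ (l k).p.map A) ≤ Helper31.EC.h ((l k).p.map W) (l k).v :=
      h_anti le_sup_left
    linarith
  rw [(l k).p.h_map] at b1
  have b2 : Helper31.EC.h W (fc (L k)) - Helper31.EC.h (fc (Setoid.ker ((s.Q.co t).cellv c k))) (fc (L k)) ≤
      Helper31.EC.h W A := by
    have c1 := h_triangle W (fc (Setoid.ker ((s.Q.co t).cellv c k))) (fc (L k))
    have e1 : fc (Setoid.ker ((s.Q.co t).cellv c k)) ⊔ fc (L k) = A := by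
      rw [sup_comm, ← fc_inf]
      rfl
    rw [e1] at c1
    linarith
  have b3 : (1 - c - ε) * (S.F k).n ≤ Helper31.EC.h ((l k).p.map W) (l k).v := by
    rw [div_lt_iff₀ hn] at a1
    rw [div_le_iff₀ hn] at a2
    rw [lt_div_iff₀ hn] at a3
    rw [Nat.cast_one, one_mul] at a2
    have a3' : (1 - ε / 3) * (S.F k).n < Helper31.EC.h W (fc (L k)) := a3
    have a1' : (l k).leak A < ε / 3 * (S.F k).n := a1
    nlinarith
  rw [le_div_iff₀ hn]
  exact b3

theorem vol_ge {s : MSys S M E ι} {i : ι} {t : Fin M} {L : ∀ k, Setoid (S.F k).Ω} (hs : SL s i t L) {c : ℝ}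
    (h0 : 0 ≤ c) (h1 : c ≤ 1) (C : LC S) {A : κ → Part S} {j : κ} (hA : A j = (s.lf i).win c) (D : ℕ) :
    1 - c ≤ volC C A (s.Q.co t) D := by
  rcases Nat.eq_zero_or_pos D with hD | hD
  · subst hD
    rw [volC_zero, Nat.cast_one]
    linarith
  · obtain ⟨x, hx⟩ := (gaq (s.Q.co t) D).exists_optfK C A
    rw [volC_eq hx]
    refine le_trans ?_ (Pool.Agent.Helper14.MC.cnt_vol (s.Q.co t) hD x hx.1.1)
    refine ent_ge hs h0 h1 ?_
    have h2 := (Gau.Adf.dm _ hx.1.1) j
    rw [hA] at h2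
    exact h2

theorem volO_ge {s : MSys S M E ι} {i : ι} {t : Fin M} {L : ∀ k, Setoid (S.F k).Ω} (hs : SL s i t L) {c : ℝ}
    (h0 : 0 ≤ c) (h1 : c ≤ 1) (C : LC S) {A : κ → Part S} {j : κ} (hA : A j = (s.lf i).win c) :
    1 - c ≤ volCO C A (s.Q.co t) := le_ciInf fun D => vol_ge hs h0 h1 C hA D

/-! ### upper bound -/

/-- the cells of level `c` as a frame -/
def cfr (y : S.VV 1) (c : ℝ) (h0 : 0 ≤ c) : Pool.Agent.Helper36.AM.Frm y (Lab.ofZ fun k => Setoid.ker (y.cellv c k)) (fun _ => c) where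
  X := VV.of (S := S) (fun k ω i => y.v k ω i / S.dl c k - ⌊y.v k ω i / S.dl c k⌋) (by
    refine ⟨1, Eventually.of_forall fun k ω _ i => ?_⟩
    have h1 := Int.floor_le (y.v k ω i / S.dl c k)
    have h2 := Int.lt_floor_add_one (y.v k ω i / S.dl c k)
    rw [abs_le]; constructor <;> linarith)
  P := fun k ω j => MvPolynomial.C ((⌊y.v k ω j / S.dl c k⌋ : ℝ) * S.dl c k)
  tri := fun k ω j i hi => by
    rw [MvPolynomial.vars_C] at hi
    exact absurd hi (Finset.notMem_empty i)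
  red := fun k ω j a ha h => by
    exfalso
    rw [MvPolynomial.mem_support_iff, MvPolynomial.coeff_C] at ha
    exact ha (if_neg (Ne.symm h))
  fn := Eventually.of_forall fun k ω ω' _ _ _ h => by
    have h1 : y.cellv c k ω = y.cellv c k ω' := h
    funext j
    have h2 : ⌊y.v k ω j / S.dl c k⌋ = ⌊y.v k ω' j / S.dl c k⌋ := congrFun h1 j
    show MvPolynomial.C ((⌊y.v k ω j / S.dl c k⌋ : ℝ) * S.dl c k) = _
    rw [h2]
  bd := by
    obtain ⟨K, hK, hb⟩ := y.bd
    refine ⟨fun k => K k + 1, hK.add (S.Sub_const zero_le_one), ?_⟩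
    filter_upwards [hb, hK.1] with k hk hK0 ω hω j a
    classical
    rw [MvPolynomial.coeff_C]
    split_ifs with h
    · have h1 := hk ω hω j
      have hd := S.dl_pos c k
      have hd1 : S.dl c k ≤ 1 := by rw [← S.dl_zero k]; exact S.dl_anti h0 k
      have h2 := Int.floor_le (y.v k ω j / S.dl c k)
      have h3 := Int.lt_floor_add_one (y.v k ω j / S.dl c k)
      rw [le_div_iff₀ hd] at h2
      rw [div_lt_iff₀ hd] at h3
      rw [abs_le] at h1 ⊢
      constructor <;> nlinarith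
    · rw [abs_zero]
      linarith
  pt := ⟨fun _ => 0, S.Sub_const le_rfl, Eventually.of_forall fun k ω _ j => by
    have hd := (S.dl_pos c k).ne'
    have h1 : y.v k ω j - (MvPolynomial.eval (fun i => S.dl c k * (y.v k ω i / S.dl c k - ⌊y.v k ω i / S.dl c k⌋))
        (MvPolynomial.C ((⌊y.v k ω j / S.dl c k⌋ : ℝ) * S.dl c k)) +
        S.dl c k * (y.v k ω j / S.dl c k - ⌊y.v k ω j / S.dl c k⌋)) = 0 := by
      rw [MvPolynomial.eval_C]
      field_simp
      ring
    have h2 : |y.v k ω j - (MvPolynomial.eval (fun i => S.dl c k * (y.v k ω i / S.dl c k - ⌊y.v k ω i / S.dl c k⌋))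
        (MvPolynomial.C ((⌊y.v k ω j / S.dl c k⌋ : ℝ) * S.dl c k)) +
        S.dl c k * (y.v k ω j / S.dl c k - ⌊y.v k ω j / S.dl c k⌋))| ≤ 0 * S.dl 1 k := by
      rw [h1, abs_zero, zero_mul]
    exact h2⟩

/-- the volume of the hull of a window which knows the cells of level `c` of the coordinate, exactly known to `R` -/
theorem volO_le_lt [Finite κ] {y : S.VV 1} {c : ℝ} (h0 : 0 ≤ c) (h1 : c < 1) {R : Part S}
    (hR : ∀ᶠ k in UF, fc (Setoid.ker (y.cellv c k)) ≤ R k) {A : κ → Part S}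
    (hA : ∀ j, PLe (fun k => fc (Setoid.ker (y.cellv c k))) (A j)) : volCO (LC.kz R) A y ≤ 1 - c := by
  set F : FD0 y (Lab.ofZ fun k => Setoid.ker (y.cellv c k)) (fun _ => c) :=
    { f := cfr y c h0, c := 0, e := 1 - c, hc := le_rfl, he := by linarith, h1 := by linarith, h0 := fun _ => h0,
      hLe := fun _ => by linarith, κ₀ := 0, hκ₀ := fun k ω j => by
        show (MvPolynomial.C _).totalDegree ≤ 0
        rw [MvPolynomial.totalDegree_C] } with hF
  have h2 := F.volCO_le (κ' := κ) (A := A) (B := fun i => upz F.zu (A i)) (X := F.XV)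
    ((Lab.ofZ_DMf (Z := fun k => Setoid.ker (y.cellv c k))).mpr hA) (fun i => ⟨i, PLe.refl _⟩) (C := R)
    (Lab.KZ_ofZ.mpr hR) F.isX_XV
  have h3 : volCO (LC.kz (upz F.zu R)) (fun i => upz F.zu (A i)) F.XV ≤ ((1 : ℕ) : ℝ) := volCO_le_M
  have h4 : 0 ≤ F.e * (((1 : ℕ) : ℝ) - volCO (LC.kz (upz F.zu R)) (fun i => upz F.zu (A i)) F.XV) :=
    mul_nonneg F.he.le (by linarith)
  rw [Finset.sum_const, Finset.card_univ, Fintype.card_fin, one_smul, Nat.cast_one] at h2
  rw [Nat.cast_one] at h4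
  linarith

end

end Pool.Agent.Helper80.OKC
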