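import Pool.Agent.Helper29.MX.St
import Pool.Agent.Helper18.PRM.Ok
import Pool.Agent.Helper80.OKC.Pnt
import Pool.Agent.Helper80.OKC.Bas
import Pool.Agent.Helper80.OKC.Vol

/-! THE CLASS `CL k`: fields of helper29's `OkA`, `Okc`, `Okd`. -/

set_option autoImplicit false

namespace Pool.Agent.Helper80.OKC

open Finset Filter Topology Matrix Pool.Agent.Helper69.RK Pool.Agent.Helper31.EC Pool.Agent.Helper31.EC.Sp
open Pool.Agent.Helper40.EL Pool.Agent.Helper89.LX Pool.Agent.Helper3.LF Pool.Agent.Helper84.MT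
open Pool.Agent.Helper36.AM Pool.Agent.Helper29.MX
open Pool.Agent.Helper7.GZ Pool.Agent.Helper7.RD
open Pool.Agent.Helper87.NSL (KnS cndR)
open Pool.Agent.Helper18.PRM (vcrd scrd dt_crd)
open Pool.Agent.Helper75.CC

noncomputable section

variable {S T : Sp} {M N k : ℕ} {E E' : ℕ → ℕ} {ι κ : Type}

/-! ### the first coordinate -/

theorem pfx_one {Q : S.VV N} (hN : 1 ≤ N) {t : Fin N} (ht : t.val = 0) : pfx Q hN = Q.co t := by
  have e : (Fin.castLE hN : Fin 1 → Fin N) = fun _ => t := by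
    funext i
    apply Fin.ext
    rw [ht]
    show (i : ℕ) = 0
    omega
  show vcrd (Fin.castLE hN) Q = _
  rw [e]
  rfl

/-- [VOL1] THE VOLUME OF THE FIRST COORDINATE over K-labels of the window `c` -/
theorem volP_one [Finite ι] {s : MSys S N E ι} (hN : 1 ≤ N) {i : ι} {t : Fin N} {L : ∀ k, Setoid (S.F k).Ω}
    (hs : SL s i t L) (ht : t.val = 0) {R : Rsl S} (hR : Pt s R) {c : ℝ} (h0 : 0 ≤ c) (h1 : c ≤ 1) :
    volP s R c hN = 1 - c := by
  unfold volP
  rw [pfx_one hN ht]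
  refine le_antisymm ?_ (volO_ge hs h0 h1 (KZ R) (A := cndR s R c) (j := some i) rfl)
  -- labels of smaller windows
  have key : ∀ b : ℝ, 0 ≤ b → b < 1 → b ≤ c → volCO (KZ R) (cndR s R c) (s.Q.co t) ≤ 1 - b := by
    intro b b0 b1 hb
    have h2 : ∀ᶠ k in UF, (fc (Setoid.ker ((s.Q.co t).cellv b k)) : FL (S.F k)) ≤ fc (R k) := by
      filter_upwards [hR] with k hk
      refine fc_le fun ω ω' a a' z r => ?_
      have h3 : s.Q.v k ω = s.Q.v k ω' := hk ω ω' a a' z r
      show (s.Q.co t).cellv b k ω = (s.Q.co t).cellv b k ω'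
      funext j
      show ⌊s.Q.v k ω t / S.dl b k⌋ = ⌊s.Q.v k ω' t / S.dl b k⌋
      rw [h3]
    refine volO_le_lt b0 b1 h2 (fun o => ?_)
    rcases o with _ | i'
    · refine tendsto_const_nhds.congr' ?_
      filter_upwards [h2] with k hk
      show (0 : ℝ) = Helper31.EC.h _ (fc (R k)) / _
      rw [h_zero hk, zero_div]
    · have a1 : PLe (fun k => fc (Setoid.ker ((s.Q.co t).cellv b k))) (fun k => fc (Setoid.ker (s.Q.cellv b k))) := by
        refine PLe_of_le fun k => fc_mono fun ω ω' h => ?_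
        have h3 : s.Q.cellv b k ω = s.Q.cellv b k ω' := h
        show (s.Q.co t).cellv b k ω = (s.Q.co t).cellv b k ω'
        funext j
        exact congrFun h3 t
      exact (a1.trans ((s.lf i').dg_win b0 b1.le)).trans ((s.lf i').win_mono hb)
  rcases h1.lt_or_eq with h2 | h2
  · exact key c h0 h2 le_rfl
  · subst h2
    apply le_of_forall_pos_le_add
    intro ε hε
    have h3 := key (1 - min ε 1) (by linarith [min_le_right ε 1]) (by
      have := lt_min hε one_pos
      linarith) (by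
      have := lt_min hε one_pos
      linarith)
    have h4 := min_le_left ε 1
    linarith

/-! ### the fields -/

theorem CL_im (S : Sp) (g r : ℕ) (s : MSys S M (lin g) (Fin r)) (hs : CL M k S g r s) (T : Sp) (p : Pj T S)
    (A : ∀ k, (T.F k).Ω → Prop) (hA : 0 < ul (T.pr A)) : CL M k (Sp.im p A) g r (s.im p A hA) := by
  obtain ⟨t, u, ht, hu, ⟨d⟩⟩ := hs
  exact ⟨t, u, ht, hu, ⟨d.im (fun h => by rw [h, ht] at hu; exact zero_ne_one hu) p A hA⟩⟩

theorem CL_trn (S : Sp) (g r : ℕ) (s : MSys S M (lin g) (Fin r)) (hs : CL M k S g r s) (e : ℝ) (he : 0 < e)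
    (h1 : e ≤ 1) : CL M k (S.chg S.tr e he) g r (s.trn e he h1) := by
  obtain ⟨t, u, ht, hu, ⟨d⟩⟩ := hs
  exact ⟨t, u, ht, hu, ⟨d.trn (fun h => by rw [h, ht] at hu; exact zero_ne_one hu) he h1⟩⟩

/-- THE CLOSURE PROPERTIES of the ordinary class `CL k` -/
theorem okA_CL (M k : ℕ) : OkA M (CL M k) where
  im := CL_im
  trn := CL_trn
  pnt := fun _ _ _ _ _ hs hn => CL_pnt hs hn.1 hn.2
  add := CL_add
  sub := Pool.Agent.Helper80.SUB.subCl_CL M k
  bas := fun _ _ _ _ hs l hl => CL_bas hs l fun i => hl (some i)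

/-- THE ENTRY of the class `CC k`: if the exponent of the first coordinate is its weight, the first coordinate stays the
first one, and the coordinate `1` is a polynomial of the first one -/
theorem prm_CL {w : Fin M → ℝ} {g r : ℕ} {s : MSys S M (lin g) (Fin r)} {σ : Equiv.Perm (Fin M)}
    (hs : CL M k S g r s) (hw : Monotone w)
    (hx : ∃ c : ℝ, 0 < c ∧ (∀ j, w j * c < 1) ∧
      ∀ j : Fin M, (j : ℕ) = 0 → w (σ.symm j) * c = 1 - volP s (rbot S) c (Nat.succ_le_of_lt j.2))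
    (hσ : ∀ j : Fin M, (j : ℕ) = 0 → w (σ.symm j) = 1 → σ j = j) (z : Fin M) (hz : ∀ j, j ≤ z) (h1 : ∀ j, 1 ≤ w j) :
    ∃ t : Fin M, t.val = 0 ∧ w t = 1 ∧ Nonempty (Dt k t w (w z) (scrd σ s)) := by
  obtain ⟨t, u, ht, hu, ⟨d⟩⟩ := hs
  have hut : u ≠ t := fun h => by rw [h, ht] at hu; exact zero_ne_one hu
  obtain ⟨c, hc, hc1, hv⟩ := hx
  have hN : 1 ≤ M := Nat.one_le_of_lt t.2
  have hc2 : c < 1 := by
    have := hc1 t
    have h2 := h1 t
    nlinarith
  have h2 : volP s (rbot S) c hN = 1 - c := volP_one hN d.sl ht (Eventually.of_forall fun k ω ω' _ _ _ h => by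
    have h3 : ω = ω' := h
    rw [h3]) hc.le hc2.le
  have h3 : w (σ.symm t) = 1 := by
    have h4 := hv ⟨0, hN⟩ rfl
    have e : (⟨0, hN⟩ : Fin M) = t := Fin.ext ht.symm
    have h5 : volP s (rbot S) c (Nat.succ_le_of_lt (⟨0, hN⟩ : Fin M).2) = 1 - c := h2
    rw [h5, e] at h4
    have h6 : (w (σ.symm t) - 1) * c = 0 := by linarith
    rcases mul_eq_zero.mp h6 with h7 | h7
    · linarith
    · exact absurd h7 hc.ne'
  have h4 : σ t = t := hσ t ht h3
  have h5 : σ.symm t = t := by rw [Equiv.symm_apply_eq]; exact h4.symm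
  refine ⟨t, ht, by rw [← h5]; exact h3, ?_⟩
  have d2 : Dt k t (fun j => w (σ.symm j)) (w z) s := d.toDt hut (hw (hz _))
  have d3 : Dt k t (fun j => w (σ.symm (σ j))) (w z) (scrd σ s) :=
    dt_crd (w := fun j => w (σ.symm j)) σ (h4.symm ▸ d2)
  have e : (fun j => w (σ.symm (σ j))) = w := by
    funext j
    rw [Equiv.symm_apply_apply]
  rw [e] at d3
  exact ⟨d3⟩

end

end Pool.Agent.Helper80.OKC
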