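import Pool.Agent.Helper80.OKC.Prm
import Pool.Agent.Helper75.CC.Zc

/-! THE ROW okC from `STO (Cv CL v) → STO (Cv CC0 v)` (helper40). -/

set_option autoImplicit false

namespace Pool.Agent.Helper80.OKC

open Finset Filter Topology Pool.Agent.Helper69.RK Pool.Agent.Helper31.EC Pool.Agent.Helper31.EC.Sp
open Pool.Agent.Helper40.EL Pool.Agent.Helper84.MT Pool.Agent.Helper49.MD
open Pool.Agent.Helper36.AM (STO)
open Pool.Agent.Helper75.CC Pool.Agent.Helper29.MX Pool.Agent.Helper58.CCZ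

noncomputable section

theorem CL_dg (M k g r : ℕ) :
    DiagCl (lft fun S (s : MSys S (M + 2) (lin g) (Fin r)) => CL (M + 2) k S g r s) := by
  refine (DiagCl.cl (k := k) (Pool.Agent.Helper21.MX.dg_top (M := M + 2) (E := lin g) (ι := Fin r))).mono ?_ ?_
  · rintro _ S x ⟨s, hs, h⟩
    exact ⟨s, hs, trivial, h⟩
  · rintro S x ⟨s, hs, _, h⟩
    exact ⟨s, hs, h⟩

/-- THE CLOSURE PROPERTIES of the classes of the selection (zoom: helper75) -/
theorem okc_CL (M k : ℕ) : Okc (M + 2) (CL (M + 2) k) (fun _ => CL (M + 2) k) where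
  oA := okA_CL (M + 2) k
  le := fun _ _ _ _ _ h => h
  im := fun _ => CL_im
  dg := fun _ g r => CL_dg M k g r
  trn := fun _ => CL_trn
  pnt := fun _ _ _ _ _ _ hs hn => CL_pnt hs hn.1 hn.2
  add := fun _ => CL_add
  bas := fun _ _ _ _ _ hs l hl => CL_bas hs l hl
  zoom := fun _ g r D0 => ⟨max D0 (max k 1), fun S s hs R hR z lam W h5 h1 h2 h3 h4 => by
    obtain ⟨z', W', a1, a2, a3, a4, a5, a6, a7, a8, a9, a10, a11, a12⟩ := cl_zoomT s hs R hR z lam W h1 h2 h3 h4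
    exact ⟨z', W', a1, a2, a3, a4, a5, a6, a7, a8, a9, fun _ => a10, a11.le.trans (max_le_max_right _ h5), a12⟩⟩

theorem ent_CL (N k : ℕ) : Ent (CL N k) (fun _ => CL N k) := fun _ _ _ _ h _ _ => ⟨0, h⟩

/-- **okC**, from the structure theorem for the auxiliary class of helper58 -/
theorem okC (M k : ℕ) (hsto : ∀ v, STO (M + 2) (Cv (CL (M + 2) k) v) → STO (M + 2) (Cv (CC0 (M + 2) k) v)) :
    okM (M + 2) (CL (M + 2) k) (CC (M + 2) k) := fun _ h =>
  ⟨CL (M + 2) k, fun _ => CL (M + 2) k, DC M k, okc_CL M k, ent_CL (M + 2) k, okd_CL M k hsto, h⟩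

end

end Pool.Agent.Helper80.OKC
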