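import Pool.Agent.Helper58.CCZ.DerDg
import Pool.Agent.Helper80.OKC.Fld

/-! THE ROW okC, the classes `D w m` = `DC`: the entry `prm`, and with it the whole structure `Okd`. -/

set_option autoImplicit false

namespace Pool.Agent.Helper80.OKC

open Finset Filter Topology Pool.Agent.Helper69.RK Pool.Agent.Helper31.EC Pool.Agent.Helper31.EC.Sp
open Pool.Agent.Helper40.EL Pool.Agent.Helper84.MT Pool.Agent.Helper49.MD
open Pool.Agent.Helper36.AM (STO)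
open Pool.Agent.Helper75.CC Pool.Agent.Helper29.MX Pool.Agent.Helper58.CCZ

noncomputable section

/-- THE ENTRY of the classes `DC` -/
theorem dc_prm (M k : ℕ) (w : Fin (M + 2) → ℝ) (m : ℕ) (S : Sp) (g r : ℕ) (s : MSys S (M + 2) (lin g) (Fin r))
    (σ : Equiv.Perm (Fin (M + 2))) (hs : CL (M + 2) k S g r s) (_hst : Stb 0 s (rbot S)) (hw : Monotone w)
    (h1 : ∀ j, 1 ≤ w j) (hx : ∃ (c : ℝ) (l : Lab S)
      (_ : Pool.Agent.Helper36.AM.Frm (Pool.Agent.Helper18.PRM.vcrd σ s.Q) l fun j => w j * c),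
      0 < c ∧ (∀ j, w j * c < 1) ∧ TLb s c l ∧
        ∀ j : Fin (M + 2), (j : ℕ) = 0 → w (σ.symm j) * c = 1 - volP s (rbot S) c (Nat.succ_le_of_lt j.2))
    (hσ : ∀ j : Fin (M + 2), (j : ℕ) = 0 → w (σ.symm j) = 1 → σ j = j) :
    DC M k w m S g r (Pool.Agent.Helper18.PRM.scrd σ s) := by
  obtain ⟨c, _, _, hc, hc1, _, hv⟩ := hx
  obtain ⟨t, ht, hwt, hd⟩ := prm_CL hs hw ⟨c, hc, hc1, hv⟩ hσ (Fin.last (M + 1)) (fun j => Fin.le_last j) h1
  have e : t = 0 := Fin.ext ht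
  refine ⟨h1, ?_, t, ht, hd⟩
  rw [← e]
  exact hwt

/-- THE WHOLE STRUCTURE `Okd` FOR THE ROW okC -/
theorem okd_CL (M k : ℕ) (hsto : ∀ v, STO (M + 2) (Cv (CL (M + 2) k) v) → STO (M + 2) (Cv (CC0 (M + 2) k) v)) :
    Okd (M + 2) (CL (M + 2) k) (fun _ => CL (M + 2) k) (CC (M + 2) k) (DC M k) :=
  okd_cc M k (fun w m S g r s σ h h1 h2 h3 h4 h5 => dc_prm M k w m S g r s σ h h1 h2 h3 h4 h5) (aux_cc M k hsto)

end

end Pool.Agent.Helper80.OKC
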